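import Pool.Agent.H33R3.Bom.Stmts2

/-!
# The full difference (task M3)
-/

set_option autoImplicit false

namespace Pool.Agent.H269R3.Bom2

open Complex Metric Set Filter Topology
open Pool.Agent.H33R3.Bom

lemma one_sub_sq_ne {z : ℂ} (hz : ‖z‖ < 1) : 1 - z ^ 2 ≠ 0 := by
  intro h
  have h1 : ‖z‖ ^ 2 = 1 := by rw [← norm_pow, ← sub_eq_zero.mp h, norm_one]
  nlinarith [norm_nonneg z]

lemma hh_diff {Y : ℂ → ℂ} (hY : IsG Y) : DifferentiableOn ℂ (hh Y) (ball 0 1) := by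
  have h1 : DifferentiableOn ℂ (dslope Y 0) (ball 0 1) :=
    (Complex.differentiableOn_dslope (isOpen_ball.mem_nhds (by simp))).mpr hY.diff
  exact h1.add differentiableOn_id

lemma phi_diff {Y : ℂ → ℂ} (hY : IsG Y) : DifferentiableOn ℂ (fun z => z ^ 3 * hh Y z *
      ((1 - z ^ 2)⁻¹ * ((Y z)⁻¹) ^ 2 + ((1 - z ^ 2)⁻¹) ^ 2 * (Y z)⁻¹)) (ball 0 1) := by
  have h1 : DifferentiableOn ℂ (fun z : ℂ => (1 - z ^ 2)⁻¹) (ball 0 1) := by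
    apply DifferentiableOn.inv
    · fun_prop
    · intro z hz
      exact one_sub_sq_ne (mem_ball_zero_iff.mp hz)
  have h2 : DifferentiableOn ℂ (fun z : ℂ => (Y z)⁻¹) (ball 0 1) :=
    hY.diff.inv hY.ne
  have h3 : DifferentiableOn ℂ (fun z : ℂ => z ^ 3) (ball 0 1) := by fun_prop
  exact (h3.mul (hh_diff hY)).mul ((h1.mul (h2.pow 2)).add ((h1.pow 2).mul h2))

theorem taskM3 : TaskM3 := by
  intro hL hH hYB Y hY n hn
  obtain ⟨hep, hhb⟩ := hH Y hY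
  have hN : (2 : ℝ) ≤ n := by exact_mod_cast hn
  obtain ⟨u, hu⟩ : ∃ u : ℝ, u = 1 / (2 * n) := ⟨_, rfl⟩
  have hu0 : 0 < u := by rw [hu]; positivity
  have hu1 : u ≤ 1 / 4 := by
    rw [hu]
    apply one_div_le_one_div_of_le <;> linarith
  have hun : u * (2 * n) = 1 := by rw [hu]; field_simp
  obtain ⟨r, hr⟩ : ∃ r : ℝ, r = Real.sqrt (1 - u) := ⟨_, rfl⟩
  have hr2 : r ^ 2 = 1 - u := by rw [hr, Real.sq_sqrt (by linarith)]
  have hr0 : 0 < r := by rw [hr]; exact Real.sqrt_pos.mpr (by linarith)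
  have hr1 : r < 1 := by nlinarith
  obtain ⟨s, hs⟩ : ∃ s : ℝ, s = Real.sqrt u := ⟨_, rfl⟩
  have hs2 : s ^ 2 = u := by rw [hs, Real.sq_sqrt hu0.le]
  have hs0 : 0 < s := by rw [hs]; exact Real.sqrt_pos.mpr hu0
  have hs1 : s ≤ 1 := by nlinarith
  have hLa : La r = Real.log (2 * n) := by
    unfold La
    rw [hr2, sub_sub_cancel, hu, one_div, Real.log_inv, neg_neg]
  have hlog : 0 ≤ Real.log (2 * n) := Real.log_nonneg (by linarith)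
  obtain ⟨S, hS⟩ : ∃ S : ℝ, S = Real.sqrt (ep Y * Real.log (2 * n)) := ⟨_, rfl⟩
  have hS2 : S ^ 2 = ep Y * Real.log (2 * n) := by rw [hS, Real.sq_sqrt (mul_nonneg hep hlog)]
  have hS0 : 0 ≤ S := by rw [hS]; exact Real.sqrt_nonneg _
  have hpt : ∀ z : ℂ, ‖z‖ = r → ‖z ^ 3 * hh Y z *
      ((1 - z ^ 2)⁻¹ * ((Y z)⁻¹) ^ 2 + ((1 - z ^ 2)⁻¹) ^ 2 * (Y z)⁻¹)‖ ≤
        (S * (s / (2 * u ^ 2) + 1 / u)) / ‖1 - z ^ 2‖ ^ 2 + S / (2 * s * u ^ 2) := by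
    intro z hz
    have hzb : z ∈ ball (0 : ℂ) 1 := by rw [mem_ball_zero_iff, hz]; exact hr1
    have hT : u ≤ ‖1 - z ^ 2‖ := by
      have h1 := norm_sub_norm_le (1 : ℂ) (z ^ 2)
      rw [norm_one, norm_pow, hz, hr2] at h1
      linarith
    have hT0 : 0 < ‖1 - z ^ 2‖ := lt_of_lt_of_le hu0 hT
    have hy : u ≤ ‖Y z‖ := by
      have h1 := hYB Y hY z hzb
      rw [hz, hr2] at h1
      linarith
    have hy0 : 0 < ‖Y z‖ := lt_of_lt_of_le hu0 hy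
    have ha : ‖hh Y z‖ ≤ S := by
      have h1 := hhb z hzb
      rw [hz, hLa, ← hS2] at h1
      exact abs_le_of_sq_le_sq' h1 hS0 |>.2
    have hz3 : ‖z‖ ^ 3 ≤ 1 := by
      rw [hz]
      exact pow_le_one₀ hr0.le hr1.le
    obtain ⟨x, hx⟩ : ∃ x : ℝ, x = ‖1 - z ^ 2‖⁻¹ := ⟨_, rfl⟩
    have hx0 : 0 < x := by rw [hx]; positivity
    have hyv : ‖Y z‖⁻¹ ≤ u⁻¹ := inv_anti₀ hu0 hy
    have hy00 : 0 ≤ ‖Y z‖⁻¹ := by positivity
    obtain ⟨v, hv⟩ : ∃ v : ℝ, v = u⁻¹ := ⟨_, rfl⟩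
    have hv0 : 0 < v := by rw [hv]; positivity
    have h1 : ‖(1 - z ^ 2)⁻¹ * ((Y z)⁻¹) ^ 2 + ((1 - z ^ 2)⁻¹) ^ 2 * (Y z)⁻¹‖ ≤
        x * v ^ 2 + x ^ 2 * v := by
      refine (norm_add_le _ _).trans ?_
      rw [norm_mul, norm_mul, norm_pow, norm_pow, norm_inv, norm_inv, ← hx]
      rw [hv]
      gcongr
    have h2 : ‖z ^ 3 * hh Y z‖ ≤ S := by
      rw [norm_mul, norm_pow]
      calc ‖z‖ ^ 3 * ‖hh Y z‖ ≤ 1 * S := by gcongr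
        _ = S := one_mul _
    have h3 : x ≤ (s * x ^ 2 + s⁻¹) / 2 := by
      have h4 : (s * x ^ 2 + s⁻¹) / 2 - x = s⁻¹ * (s * x - 1) ^ 2 / 2 := by
        field_simp
        ring
      have h5 : 0 ≤ s⁻¹ * (s * x - 1) ^ 2 / 2 := by positivity
      linarith
    rw [norm_mul]
    calc ‖z ^ 3 * hh Y z‖ * ‖(1 - z ^ 2)⁻¹ * ((Y z)⁻¹) ^ 2 + ((1 - z ^ 2)⁻¹) ^ 2 * (Y z)⁻¹‖
        ≤ S * (x * v ^ 2 + x ^ 2 * v) := by gcongr
      _ ≤ S * ((s * x ^ 2 + s⁻¹) / 2 * v ^ 2 + x ^ 2 * v) := by gcongr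
      _ = (S * (s / (2 * u ^ 2) + 1 / u)) / ‖1 - z ^ 2‖ ^ 2 + S / (2 * s * u ^ 2) := by
        rw [hx, hv]
        field_simp
        ring
  have hmain := hL _ r _ _ (phi_diff hY) hr0 hr1 hpt (2 * n)
  set c := ‖coeff (2 * n) (fun z => z ^ 3 * hh Y z *
      ((1 - z ^ 2)⁻¹ * ((Y z)⁻¹) ^ 2 + ((1 - z ^ 2)⁻¹) ^ 2 * (Y z)⁻¹))‖ with hc
  have hc0 : 0 ≤ c := norm_nonneg _
  -- the power of `r`
  have hrpow : 1 / 2 ≤ r ^ (2 * n) := by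
    rw [pow_mul, hr2]
    have h1 := one_add_mul_le_pow (a := -u) (by linarith) n
    have h2 : 1 + (n : ℝ) * -u = 1 / 2 := by nlinarith
    rw [h2] at h1
    rwa [← sub_eq_add_neg] at h1
  have hr4 : u ≤ 1 - r ^ 4 := by
    have : r ^ 4 = (1 - u) ^ 2 := by rw [← hr2]; ring
    rw [this]
    nlinarith
  have hB0 : 0 ≤ S * (s / (2 * u ^ 2) + 1 / u) := by positivity
  have h1 : S * (s / (2 * u ^ 2) + 1 / u) / (1 - r ^ 4) + S / (2 * s * u ^ 2) ≤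
      2 * S / s ^ 5 := by
    have h2 : S * (s / (2 * u ^ 2) + 1 / u) / (1 - r ^ 4) ≤
        S * (s / (2 * u ^ 2) + 1 / u) / u := div_le_div_of_nonneg_left hB0 hu0 hr4
    have h3 : S * (s / (2 * u ^ 2) + 1 / u) / u + S / (2 * s * u ^ 2) =
        S / s ^ 5 + S / s ^ 4 := by
      rw [← hs2]
      field_simp
      ring
    have h4 : S / s ^ 4 ≤ S / s ^ 5 := by
      apply div_le_div_of_nonneg_left hS0 (by positivity)
      calc s ^ 5 = s ^ 4 * s := by ring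
        _ ≤ s ^ 4 * 1 := by gcongr
        _ = s ^ 4 := mul_one _
    have h5 : 2 * S / s ^ 5 = S / s ^ 5 + S / s ^ 5 := by ring
    rw [h5]
    linarith
  have h6 : c ≤ 4 * S / s ^ 5 := by
    have h7 : c * (1 / 2) ≤ c * r ^ (2 * n) := by gcongr
    have h8 : 4 * S / s ^ 5 = 2 * (2 * S / s ^ 5) := by ring
    rw [h8]
    linarith
  have h9 : c ^ 2 ≤ (4 * S / s ^ 5) ^ 2 := pow_le_pow_left₀ hc0 h6 2
  have h10 : (4 * S / s ^ 5) ^ 2 = 512 * (n : ℝ) ^ 5 * Real.log (2 * n) * ep Y := by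
    have h11 : (4 * S / s ^ 5) ^ 2 = 16 * S ^ 2 / (s ^ 2) ^ 5 := by ring
    rw [h11, hS2, hs2, hu]
    field_simp
    ring
  have h12 : 0 ≤ (n : ℝ) ^ 5 * Real.log (2 * n) * ep Y := by positivity
  rw [h10] at h9
  linarith

end Pool.Agent.H269R3.Bom2
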